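import Pool.Agent.H59.Per.Defs

/-! Module CELL of MP_588c6d_co: `m` ellipses cut the plane into `O(m^2)` classes. -/

set_option autoImplicit false

open Polynomial

namespace Pool.Agent.H47P

/-- sum of the distances to the two foci -/
noncomputable def F (a y z : ℂ) : ℝ := ‖z - a‖ + ‖z - y‖

lemma F_cont (a y : ℂ) : Continuous (F a y) := by unfold F; fun_prop

lemma F_focus (a y : ℂ) : F a y a = ‖a - y‖ := by simp [F]

lemma F_conv (a y z w : ℂ) {t : ℝ} (h0 : 0 ≤ t) (h1 : t ≤ 1) :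
    F a y ((1 - t : ℝ) * z + (t : ℝ) * w) ≤ (1 - t) * F a y z + t * F a y w := by
  unfold F
  have e1 : ((1 - t : ℝ) : ℂ) * z + (t : ℝ) * w - a =
      ((1 - t : ℝ) : ℂ) * (z - a) + (t : ℝ) * (w - a) := by push_cast; ring
  have e2 : ((1 - t : ℝ) : ℂ) * z + (t : ℝ) * w - y =
      ((1 - t : ℝ) : ℂ) * (z - y) + (t : ℝ) * (w - y) := by push_cast; ring
  rw [e1, e2]
  have n1 := norm_add_le (((1 - t : ℝ) : ℂ) * (z - a)) ((t : ℝ) * (w - a))
  have n2 := norm_add_le (((1 - t : ℝ) : ℂ) * (z - y)) ((t : ℝ) * (w - y))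
  rw [norm_mul, norm_mul, Complex.norm_real, Complex.norm_real, Real.norm_of_nonneg h0,
    Real.norm_of_nonneg (by linarith : (0:ℝ) ≤ 1 - t)] at n1 n2
  nlinarith

/-- far away the sum of distances is large -/
lemma F_far (a y z : ℂ) (s : ℝ) : s - ‖z - a‖ ≤ F a y (z + s) := by
  unfold F
  have h1 : ‖(s : ℂ)‖ ≤ ‖z + s - a‖ + ‖z - a‖ := by
    have : (s : ℂ) = (z + s - a) - (z - a) := by ring
    calc ‖(s : ℂ)‖ = ‖(z + s - a) - (z - a)‖ := by rw [← this]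
      _ ≤ _ := norm_sub_le _ _
  rw [Complex.norm_real] at h1
  have h2 := le_abs_self s
  have h3 := norm_nonneg (z + s - y)
  rw [Real.norm_eq_abs] at h1
  linarith

/-- the quadratic form deciding the position with respect to the ellipse -/
noncomputable def Q (a y : ℂ) (σ : ℝ) (z : ℂ) : ℝ :=
  (2 * (y.re - a.re) * z.re + 2 * (y.im - a.im) * z.im +
    (a.re ^ 2 + a.im ^ 2 - y.re ^ 2 - y.im ^ 2)) ^ 2
  - 2 * σ ^ 2 * ((z.re - a.re) ^ 2 + (z.im - a.im) ^ 2 + (z.re - y.re) ^ 2 + (z.im - y.im) ^ 2)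
  + σ ^ 4

lemma norm_sq' (z : ℂ) : ‖z‖ ^ 2 = z.re ^ 2 + z.im ^ 2 := by
  rw [← Complex.normSq_eq_norm_sq, Complex.normSq_apply]; ring

lemma Q_eq (a y : ℂ) (σ : ℝ) (z : ℂ) :
    Q a y σ z = (F a y z ^ 2 - σ ^ 2) * ((‖z - a‖ - ‖z - y‖) ^ 2 - σ ^ 2) := by
  have h1 := norm_sq' (z - a)
  have h2 := norm_sq' (z - y)
  simp only [Complex.sub_re, Complex.sub_im] at h1 h2
  unfold Q F
  have e : 2 * (y.re - a.re) * z.re + 2 * (y.im - a.im) * z.im +
    (a.re ^ 2 + a.im ^ 2 - y.re ^ 2 - y.im ^ 2) = ‖z - a‖ ^ 2 - ‖z - y‖ ^ 2 := by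
    rw [h1, h2]; ring
  have e2 : (z.re - a.re) ^ 2 + (z.im - a.im) ^ 2 + (z.re - y.re) ^ 2 + (z.im - y.im) ^ 2 =
    ‖z - a‖ ^ 2 + ‖z - y‖ ^ 2 := by rw [h1, h2]; ring
  rw [e, e2]; ring

lemma Q_fac_neg {a y : ℂ} {σ : ℝ} (hσ : ‖a - y‖ < σ) (z : ℂ) :
    (‖z - a‖ - ‖z - y‖) ^ 2 - σ ^ 2 < 0 := by
  have h1 : |‖z - a‖ - ‖z - y‖| ≤ ‖a - y‖ := by
    have := abs_norm_sub_norm_le (z - a) (z - y)
    have e : (z - a) - (z - y) = y - a := by ring
    rw [e, norm_sub_rev y a] at this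
    exact this
  have h2 : (‖z - a‖ - ‖z - y‖) ^ 2 < σ ^ 2 := by
    apply sq_lt_sq'
    · have := (abs_le.1 h1).1; linarith
    · have := (abs_le.1 h1).2; linarith
  linarith

lemma F_nonneg (a y z : ℂ) : 0 ≤ F a y z := add_nonneg (norm_nonneg _) (norm_nonneg _)

lemma Q_pos_iff {a y : ℂ} {σ : ℝ} (hσ : ‖a - y‖ < σ) (z : ℂ) : 0 < Q a y σ z ↔ F a y z < σ := by
  have h1 := Q_fac_neg hσ z
  have h2 := F_nonneg a y z
  have h3 : 0 < σ := lt_of_le_of_lt (norm_nonneg _) hσ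
  rw [Q_eq]
  constructor
  · intro h
    by_contra hc
    push Not at hc
    have : 0 ≤ F a y z ^ 2 - σ ^ 2 := by nlinarith
    nlinarith
  · intro h
    have : F a y z ^ 2 - σ ^ 2 < 0 := by nlinarith
    exact mul_pos_of_neg_of_neg this h1

lemma Q_zero_iff {a y : ℂ} {σ : ℝ} (hσ : ‖a - y‖ < σ) (z : ℂ) : Q a y σ z = 0 ↔ F a y z = σ := by
  have h1 := Q_fac_neg hσ z
  have h2 := F_nonneg a y z
  have h3 : 0 < σ := lt_of_le_of_lt (norm_nonneg _) hσ
  rw [Q_eq]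
  constructor
  · intro h
    rcases mul_eq_zero.1 h with h | h
    · nlinarith
    · exact absurd h h1.ne
  · intro h; rw [h]; ring

/-! ### parametrisation from a focus -/

noncomputable def kap (a y : ℂ) (σ : ℝ) : ℝ := (σ ^ 2 - ‖y - a‖ ^ 2) / 2

noncomputable def DD (a y : ℂ) (σ s : ℝ) : ℝ :=
  σ * (1 + s ^ 2) - (y.re - a.re) * (1 - s ^ 2) - 2 * (y.im - a.im) * s

noncomputable def ZZ (a y : ℂ) (σ s : ℝ) : ℂ :=
  ⟨a.re + kap a y σ * (1 - s ^ 2) / DD a y σ s, a.im + kap a y σ * (2 * s) / DD a y σ s⟩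

noncomputable def Zinf (a y : ℂ) (σ : ℝ) : ℂ :=
  ⟨a.re - kap a y σ / (σ + (y.re - a.re)), a.im⟩

lemma abs_re_le' {a y : ℂ} {σ : ℝ} (hσ : ‖a - y‖ < σ) : |y.re - a.re| < σ := by
  have := Complex.abs_re_le_norm (y - a)
  rw [norm_sub_rev y a, Complex.sub_re] at this
  linarith

lemma DD_pos {a y : ℂ} {σ : ℝ} (hσ : ‖a - y‖ < σ) (s : ℝ) : 0 < DD a y σ s := by
  have h0 : ‖y - a‖ < σ := by rw [norm_sub_rev]; exact hσ
  have hn := norm_sq' (y - a)
  simp only [Complex.sub_re, Complex.sub_im] at hn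
  have hnn := norm_nonneg (y - a)
  unfold DD
  set c1 := y.re - a.re
  set c2 := y.im - a.im
  set n := ‖y - a‖
  have key : c1 * (1 - s ^ 2) + 2 * c2 * s ≤ n * (1 + s ^ 2) := by
    apply le_of_sq_le_sq _ (by positivity)
    have : (n * (1 + s ^ 2)) ^ 2 - (c1 * (1 - s ^ 2) + 2 * c2 * s) ^ 2 =
      (c1 * (2 * s) - c2 * (1 - s ^ 2)) ^ 2 := by
      rw [mul_pow, hn]; ring
    nlinarith [sq_nonneg (c1 * (2 * s) - c2 * (1 - s ^ 2))]
  nlinarith [mul_pos (sub_pos.2 h0) (by positivity : (0:ℝ) < 1 + s ^ 2)]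

/-- every point of the ellipse is `Zinf` or `ZZ s` -/
lemma param {a y : ℂ} {σ : ℝ} (hσ : ‖a - y‖ < σ) {z : ℂ} (hz : F a y z = σ) :
    z = Zinf a y σ ∨ ∃ s, z = ZZ a y σ s := by
  have hr2 := norm_sq' (z - a)
  have hq2 := norm_sq' (z - y)
  have hc2 := norm_sq' (y - a)
  simp only [Complex.sub_re, Complex.sub_im] at hr2 hq2 hc2
  have hF : ‖z - y‖ = σ - ‖z - a‖ := by unfold F at hz; linarith
  rw [hF] at hq2
  have hr0 : 0 < ‖z - a‖ := by
    rcases (norm_nonneg (z - a)).eq_or_lt with h | h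
    · exfalso
      have : z = a := by
        have := norm_eq_zero.1 h.symm
        exact sub_eq_zero.1 this
      rw [this, F_focus] at hz
      linarith
    · exact h
  have hσ0 : 0 < σ := lt_of_le_of_lt (norm_nonneg _) hσ
  have hk : kap a y σ > 0 := by
    unfold kap
    have h0 : ‖y - a‖ < σ := by rw [norm_sub_rev]; exact hσ
    have := norm_nonneg (y - a)
    nlinarith
  have hre := abs_lt.1 (abs_re_le' hσ)
  obtain ⟨x1, hx1⟩ : ∃ x1, x1 = z.re - a.re := ⟨_, rfl⟩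
  obtain ⟨x2, hx2⟩ : ∃ x2, x2 = z.im - a.im := ⟨_, rfl⟩
  obtain ⟨r, hr⟩ : ∃ r, r = ‖z - a‖ := ⟨_, rfl⟩
  obtain ⟨c1, hc1⟩ : ∃ c1, c1 = y.re - a.re := ⟨_, rfl⟩
  obtain ⟨c2, hc2'⟩ : ∃ c2, c2 = y.im - a.im := ⟨_, rfl⟩
  have hzy1 : z.re - y.re = x1 - c1 := by rw [hx1, hc1]; ring
  have hzy2 : z.im - y.im = x2 - c2 := by rw [hx2, hc2']; ring
  rw [hzy1, hzy2, ← hr] at hq2
  rw [← hx1, ← hx2, ← hr] at hr2
  rw [← hc1, ← hc2'] at hc2
  rw [← hr] at hr0
  have hkap : kap a y σ = (σ ^ 2 - (c1 ^ 2 + c2 ^ 2)) / 2 := by unfold kap; rw [hc2]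
  have hmain : r * σ - (x1 * c1 + x2 * c2) = kap a y σ := by
    rw [hkap]; nlinarith
  rw [← hc1] at hre
  by_cases hx : r + x1 = 0
  · left
    have hx20 : x2 = 0 := by
      have : x2 ^ 2 = 0 := by nlinarith
      exact pow_eq_zero_iff (two_ne_zero) |>.1 this
    have hx1r : x1 = -r := by linarith
    rw [hx20, hx1r] at hmain
    have hr' : r = kap a y σ / (σ + (y.re - a.re)) := by
      rw [← hc1, eq_div_iff (by linarith : σ + c1 ≠ 0)]
      linarith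
    apply Complex.ext
    · show z.re = a.re - kap a y σ / (σ + (y.re - a.re))
      rw [← hr']; linarith
    · show z.im = a.im
      linarith
  · right
    refine ⟨x2 / (r + x1), ?_⟩
    have h1 : 1 + (x2 / (r + x1)) ^ 2 = 2 * r / (r + x1) := by
      field_simp; nlinarith
    have h2 : 1 - (x2 / (r + x1)) ^ 2 = 2 * x1 / (r + x1) := by
      field_simp; nlinarith
    have hD : DD a y σ (x2 / (r + x1)) = 2 * kap a y σ / (r + x1) := by
      unfold DD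
      rw [h1, h2, ← hmain, ← hc1, ← hc2']
      field_simp
      ring
    apply Complex.ext
    · show z.re = a.re + kap a y σ * (1 - (x2 / (r + x1)) ^ 2) / DD a y σ (x2 / (r + x1))
      rw [h2, hD]
      have : kap a y σ * (2 * x1 / (r + x1)) / (2 * kap a y σ / (r + x1)) = x1 := by
        field_simp
      rw [this]; linarith
    · show z.im = a.im + kap a y σ * (2 * (x2 / (r + x1))) / DD a y σ (x2 / (r + x1))
      rw [hD]
      have : kap a y σ * (2 * (x2 / (r + x1))) / (2 * kap a y σ / (r + x1)) = x2 := by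
        field_simp
      rw [this]; linarith

/-! ### the polynomial of a second ellipse along the first -/

noncomputable def pD (a y : ℂ) (σ : ℝ) : ℝ[X] :=
  C (σ + (y.re - a.re)) * X ^ 2 + C (-2 * (y.im - a.im)) * X + C (σ - (y.re - a.re))

noncomputable def pN1 (a y : ℂ) (σ : ℝ) : ℝ[X] :=
  C a.re * pD a y σ + C (kap a y σ) * (1 - X ^ 2)

noncomputable def pN2 (a y : ℂ) (σ : ℝ) : ℝ[X] :=
  C a.im * pD a y σ + C (kap a y σ) * (2 * X)

/-- `Q b w τ (ZZ s) * DD s ^ 2` -/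
noncomputable def GP (a y : ℂ) (σ : ℝ) (b w : ℂ) (τ : ℝ) : ℝ[X] :=
  (C (2 * (w.re - b.re)) * pN1 a y σ + C (2 * (w.im - b.im)) * pN2 a y σ +
    C (b.re ^ 2 + b.im ^ 2 - w.re ^ 2 - w.im ^ 2) * pD a y σ) ^ 2
  - C (2 * τ ^ 2) * ((pN1 a y σ - C b.re * pD a y σ) ^ 2 + (pN2 a y σ - C b.im * pD a y σ) ^ 2 +
    (pN1 a y σ - C w.re * pD a y σ) ^ 2 + (pN2 a y σ - C w.im * pD a y σ) ^ 2)
  + C (τ ^ 4) * pD a y σ ^ 2

lemma pD_deg (a y : ℂ) (σ : ℝ) : (pD a y σ).natDegree ≤ 2 := by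
  unfold pD; compute_degree

lemma pN1_deg (a y : ℂ) (σ : ℝ) : (pN1 a y σ).natDegree ≤ 2 := by
  unfold pN1
  refine (natDegree_add_le _ _).trans (max_le ?_ ?_)
  · exact (natDegree_C_mul_le _ _).trans (pD_deg a y σ)
  · refine (natDegree_C_mul_le _ _).trans ?_
    compute_degree

lemma pN2_deg (a y : ℂ) (σ : ℝ) : (pN2 a y σ).natDegree ≤ 2 := by
  unfold pN2
  refine (natDegree_add_le _ _).trans (max_le ?_ ?_)
  · exact (natDegree_C_mul_le _ _).trans (pD_deg a y σ)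
  · refine (natDegree_C_mul_le _ _).trans ?_
    compute_degree!

lemma deg_sq {p : ℝ[X]} (h : p.natDegree ≤ 2) : (p ^ 2).natDegree ≤ 4 :=
  (natDegree_pow_le).trans (by omega)

lemma GP_deg (a y : ℂ) (σ : ℝ) (b w : ℂ) (τ : ℝ) : (GP a y σ b w τ).natDegree ≤ 4 := by
  have hD := pD_deg a y σ
  have h1 := pN1_deg a y σ
  have h2 := pN2_deg a y σ
  have hsub1 : ∀ c : ℝ, (pN1 a y σ - C c * pD a y σ).natDegree ≤ 2 := fun c =>
    (natDegree_sub_le _ _).trans (max_le h1 ((natDegree_C_mul_le _ _).trans hD))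
  have hsub2 : ∀ c : ℝ, (pN2 a y σ - C c * pD a y σ).natDegree ≤ 2 := fun c =>
    (natDegree_sub_le _ _).trans (max_le h2 ((natDegree_C_mul_le _ _).trans hD))
  unfold GP
  refine (natDegree_add_le _ _).trans (max_le ((natDegree_sub_le _ _).trans (max_le ?_ ?_)) ?_)
  · apply deg_sq
    refine (natDegree_add_le _ _).trans (max_le ((natDegree_add_le _ _).trans (max_le ?_ ?_)) ?_)
    · exact (natDegree_C_mul_le _ _).trans h1
    · exact (natDegree_C_mul_le _ _).trans h2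
    · exact (natDegree_C_mul_le _ _).trans hD
  · refine (natDegree_C_mul_le _ _).trans ?_
    refine (natDegree_add_le _ _).trans (max_le ((natDegree_add_le _ _).trans (max_le
      ((natDegree_add_le _ _).trans (max_le ?_ ?_)) ?_)) ?_)
    · exact deg_sq (hsub1 _)
    · exact deg_sq (hsub2 _)
    · exact deg_sq (hsub1 _)
    · exact deg_sq (hsub2 _)
  · exact (natDegree_C_mul_le _ _).trans (deg_sq hD)

lemma eval_pD (a y : ℂ) (σ s : ℝ) : (pD a y σ).eval s = DD a y σ s := by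
  unfold pD DD; simp; ring

lemma eval_pN1 (a y : ℂ) (σ s : ℝ) :
    (pN1 a y σ).eval s = a.re * DD a y σ s + kap a y σ * (1 - s ^ 2) := by
  unfold pN1; simp [eval_pD]

lemma eval_pN2 (a y : ℂ) (σ s : ℝ) :
    (pN2 a y σ).eval s = a.im * DD a y σ s + kap a y σ * (2 * s) := by
  unfold pN2; simp [eval_pD]

lemma eval_GP {a y : ℂ} {σ : ℝ} (hσ : ‖a - y‖ < σ) (b w : ℂ) (τ s : ℝ) :
    (GP a y σ b w τ).eval s = Q b w τ (ZZ a y σ s) * DD a y σ s ^ 2 := by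
  have hD := (DD_pos hσ s).ne'
  unfold GP Q ZZ
  simp only [eval_add, eval_sub, eval_mul, eval_pow, eval_C, eval_pD, eval_pN1, eval_pN2]
  field_simp

/-- the value at `Zinf` from five values of the polynomial -/
lemma Q_Zinf {a y : ℂ} {σ : ℝ} (hσ : ‖a - y‖ < σ) (b w : ℂ) (τ : ℝ) :
    Q b w τ (Zinf a y σ) * (σ + (y.re - a.re)) ^ 2 =
      ((GP a y σ b w τ).eval 2 - 4 * (GP a y σ b w τ).eval 1 + 6 * (GP a y σ b w τ).eval 0
        - 4 * (GP a y σ b w τ).eval (-1) + (GP a y σ b w τ).eval (-2)) / 24 := by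
  have hre := abs_lt.1 (abs_re_le' hσ)
  have hne : σ + (y.re - a.re) ≠ 0 := by linarith
  unfold GP Q Zinf
  simp only [eval_add, eval_sub, eval_mul, eval_pow, eval_C, eval_pD, eval_pN1, eval_pN2]
  unfold DD
  field_simp
  ring

end Pool.Agent.H47P
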