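import Pool.Agent.H47P.Cell

/-! Module CELL of MP_588c6d_co, second part: counting. -/

set_option autoImplicit false

open Polynomial

namespace Pool.Agent.H47P

/-- no zero between two points: same sign -/
lemma same_sign {g : ℝ[X]} {s t : ℝ} (hst : s ≤ t) (h : ∀ x, s ≤ x → x ≤ t → g.eval x ≠ 0) :
    0 < g.eval s ↔ 0 < g.eval t := by
  have hc : ContinuousOn (fun x => g.eval x) (Set.Icc s t) := g.continuous.continuousOn
  constructor
  · intro h1
    by_contra h2
    push Not at h2
    obtain ⟨x, hx, hx0⟩ := intermediate_value_Icc' hst hc ⟨h2, h1.le⟩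
    exact h x hx.1 hx.2 hx0
  · intro h1
    by_contra h2
    push Not at h2
    obtain ⟨x, hx, hx0⟩ := intermediate_value_Icc hst hc ⟨h2, h1.le⟩
    exact h x hx.1 hx.2 hx0

/-- points in the same gap of `B` see the same signs -/
lemma gap_sign (B : Finset ℝ) {g : ℝ[X]} (hg : ∀ x, g.eval x = 0 → x ∈ B) {s t : ℝ}
    (hs : s ∉ B) (ht : t ∉ B) (hc : (B.filter (· < s)).card = (B.filter (· < t)).card) :
    0 < g.eval s ↔ 0 < g.eval t := by
  have key : ∀ s t : ℝ, s ≤ t → s ∉ B → t ∉ B →
      (B.filter (· < s)).card = (B.filter (· < t)).card → (0 < g.eval s ↔ 0 < g.eval t) := by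
    intro s t hst _ ht hc
    apply same_sign hst
    intro x hsx hxt hx0
    have hxB := hg x hx0
    have hsub : B.filter (· < s) ⊆ B.filter (· < t) := by
      intro b hb
      rw [Finset.mem_filter] at hb ⊢
      exact ⟨hb.1, lt_of_lt_of_le hb.2 hst⟩
    have heq := Finset.eq_of_subset_of_card_le hsub hc.ge
    have hxt' : x < t := lt_of_le_of_ne hxt (fun h => ht (h ▸ hxB))
    have hmem : x ∈ B.filter (· < t) := Finset.mem_filter.2 ⟨hxB, hxt'⟩
    rw [← heq, Finset.mem_filter] at hmem
    linarith [hmem.2]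
  rcases le_total s t with h | h
  · exact key s t h hs ht hc
  · exact (key t s h ht hs hc.symm).symm

/-- counting: if `g` determines `f` on `P` then `f` takes at most as many values as `g` -/
lemma card_image_le_of_factor {α β γ : Type*} [DecidableEq β] [DecidableEq γ] (P : Finset α)
    (f : α → β) (g : α → γ) (h : ∀ p ∈ P, ∀ q ∈ P, g p = g q → f p = f q) :
    (P.image f).card ≤ (P.image g).card := by
  classical
  rcases P.eq_empty_or_nonempty with rfl | ⟨p0, hp0⟩
  · simp
  have : P.image f ⊆ (P.image g).image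
      (fun c => if hc : ∃ p ∈ P, g p = c then f hc.choose else f p0) := by
    intro b hb
    obtain ⟨p, hp, rfl⟩ := Finset.mem_image.1 hb
    rw [Finset.mem_image]
    refine ⟨g p, Finset.mem_image_of_mem _ hp, ?_⟩
    have hex : ∃ q ∈ P, g q = g p := ⟨p, hp, rfl⟩
    rw [dif_pos hex]
    exact h _ hex.choose_spec.1 _ hp hex.choose_spec.2
  exact (Finset.card_le_card this).trans Finset.card_image_le

/-- the first time the ray to the right meets one of the curves -/
lemma first_hit {m : ℕ} (a y : Fin m → ℂ) (σ : Fin m → ℝ) (J : Finset (Fin m)) (z : ℂ)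
    (hne : ∀ i, F (a i) (y i) z ≠ σ i) (hin : ∃ i ∈ J, F (a i) (y i) z < σ i) :
    ∃ i ∈ J, ∃ s : ℝ, 0 < s ∧ F (a i) (y i) (z + s) = σ i ∧
      ∀ j ∈ J, ∀ t : ℝ, 0 ≤ t → t < s →
        (F (a j) (y j) (z + t) < σ j ↔ F (a j) (y j) z < σ j) := by
  classical
  have hcont : ∀ i, Continuous (fun s : ℝ => F (a i) (y i) (z + s)) := fun i =>
    (F_cont _ _).comp (by fun_prop)
  let T : Set ℝ := {s | 0 ≤ s ∧ ∃ i ∈ J, F (a i) (y i) (z + s) = σ i}
  have hT1 : T.Nonempty := by
    obtain ⟨i, hi, hlt⟩ := hin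
    have hfar : σ i ≤ F (a i) (y i) (z + ((|σ i| + ‖z - a i‖ : ℝ) : ℂ)) := by
      have := F_far (a i) (y i) z (|σ i| + ‖z - a i‖)
      have h2 := le_abs_self (σ i)
      linarith
    have h0 : (0:ℝ) ≤ |σ i| + ‖z - a i‖ := by positivity
    have := intermediate_value_Icc h0 (hcont i).continuousOn
    obtain ⟨s, hs, hs2⟩ := this ⟨by simpa using hlt.le, hfar⟩
    exact ⟨s, hs.1, i, hi, hs2⟩
  have hTc : IsClosed T := by
    have : T = {s : ℝ | 0 ≤ s} ∩ ⋃ i ∈ J, {s : ℝ | F (a i) (y i) (z + s) = σ i} := by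
      ext s; simp [T]
    rw [this]
    apply IsClosed.inter (isClosed_le continuous_const continuous_id)
    apply Set.Finite.isClosed_biUnion J.finite_toSet
    intro i _
    exact isClosed_eq (hcont i) continuous_const
  have hTb : BddBelow T := ⟨0, fun s hs => hs.1⟩
  have hmem : sInf T ∈ T := hTc.csInf_mem hT1 hTb
  obtain ⟨h0, i, hi, hhit⟩ := hmem
  have hpos : 0 < sInf T := by
    rcases h0.eq_or_lt with h | h
    · exfalso
      rw [← h] at hhit
      apply hne i
      simpa using hhit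
    · exact h
  refine ⟨i, hi, sInf T, hpos, hhit, ?_⟩
  intro j hj t ht0 hts
  have hno : ∀ x : ℝ, 0 ≤ x → x ≤ t → F (a j) (y j) (z + x) ≠ σ j := by
    intro x hx0 hxt h
    have : sInf T ≤ x := csInf_le hTb ⟨hx0, j, hj, h⟩
    linarith
  constructor
  · intro h1
    by_contra h2
    push Not at h2
    obtain ⟨x, hx, hx2⟩ := intermediate_value_Icc' ht0 (hcont j).continuousOn
      ⟨h1.le, by simpa using h2⟩
    exact hno x hx.1 hx.2 hx2
  · intro h1
    by_contra h2
    push Not at h2
    obtain ⟨x, hx, hx2⟩ := intermediate_value_Icc ht0 (hcont j).continuousOn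
      ⟨by simpa using h1.le, h2⟩
    exact hno x hx.1 hx.2 hx2

/-- two coinciding ellipses have the same inside -/
lemma same_inside {a y b w : ℂ} {σ τ : ℝ} (hσ : ‖a - y‖ < σ)
    (h : ∀ z, F a y z = σ → F b w z = τ) {p : ℂ} (hp : F a y p ≠ σ) (hp' : F b w p ≠ τ) :
    F a y p < σ ↔ F b w p < τ := by
  -- inside points: chord argument
  have hin : ∀ q : ℂ, F a y q < σ → F b w q ≤ τ := by
    intro q hq
    have hc1 : Continuous (fun s : ℝ => F a y (q + s)) := (F_cont _ _).comp (by fun_prop)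
    have hR : (0:ℝ) ≤ |σ| + ‖q - a‖ := by positivity
    obtain ⟨s, hs, hs2⟩ := intermediate_value_Icc hR hc1.continuousOn
      ⟨by simpa using hq.le, by
        have := F_far a y q (|σ| + ‖q - a‖)
        have h2 := le_abs_self σ
        show σ ≤ F a y (q + ((|σ| + ‖q - a‖ : ℝ) : ℂ))
        linarith⟩
    -- leftward
    have hc2 : Continuous (fun s : ℝ => F a y (q - s)) := (F_cont _ _).comp (by fun_prop)
    have hfar : σ ≤ F a y (q - ((|σ| + ‖q - a‖ : ℝ) : ℂ)) := by
      have h1 := norm_sub_norm_le (((|σ| + ‖q - a‖ : ℝ) : ℂ)) (q - a)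
      rw [Complex.norm_real, Real.norm_of_nonneg hR] at h1
      have h2 : ‖(((|σ| + ‖q - a‖ : ℝ) : ℂ)) - (q - a)‖ =
          ‖q - ((|σ| + ‖q - a‖ : ℝ) : ℂ) - a‖ := by
        rw [← norm_neg]; congr 1; ring
      unfold F
      have h3 := norm_nonneg (q - ((|σ| + ‖q - a‖ : ℝ) : ℂ) - y)
      have h4 := le_abs_self σ
      rw [h2] at h1
      linarith
    obtain ⟨t, ht, ht2⟩ := intermediate_value_Icc hR hc2.continuousOn
      ⟨by simpa using hq.le, hfar⟩
    have hsne : s ≠ 0 := by
      rintro rfl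
      have : F a y q = σ := by simpa using hs2
      exact hq.ne this
    have hs0 : 0 < s := lt_of_le_of_ne hs.1 hsne.symm
    have ht0 : 0 ≤ t := ht.1
    have h1 := h _ hs2
    have h2 := h _ ht2
    have hq' : q = ((1 - s / (s + t) : ℝ) : ℂ) * (q + s) + ((s / (s + t) : ℝ) : ℂ) * (q - t) := by
      have hne : s + t ≠ 0 := by linarith
      have hne' : (s : ℂ) + t ≠ 0 := by exact_mod_cast hne
      push_cast
      field_simp
      ring
    have hconv := F_conv b w (q + s) (q - t) (t := s / (s + t)) (by positivity)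
      (by rw [div_le_one (by linarith)]; linarith)
    rw [← hq', h1, h2] at hconv
    linarith
  constructor
  · intro h1
    exact lt_of_le_of_ne (hin p h1) hp'
  · intro h1
    by_contra h2
    push Not at h2
    have h3 : σ < F a y p := lt_of_le_of_ne h2 (Ne.symm hp)
    -- the segment from a to p meets the ellipse
    have hc : Continuous (fun t : ℝ => F a y (((1 - t : ℝ) : ℂ) * a + (t : ℝ) * p)) :=
      (F_cont _ _).comp (by fun_prop)
    obtain ⟨t, ht, ht2⟩ := intermediate_value_Icc (zero_le_one) hc.continuousOn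
      ⟨by
        show F a y (((1 - 0 : ℝ) : ℂ) * a + ((0:ℝ):ℂ) * p) ≤ σ
        simp only [sub_zero, Complex.ofReal_one, one_mul, Complex.ofReal_zero, zero_mul, add_zero]
        rw [F_focus]; exact hσ.le, by
        show σ ≤ F a y (((1 - 1 : ℝ) : ℂ) * a + ((1:ℝ):ℂ) * p)
        simpa using h2⟩
    have ht0 : t ≠ 0 := by
      rintro rfl
      simp only [sub_zero, Complex.ofReal_one, one_mul, Complex.ofReal_zero, zero_mul,
        add_zero] at ht2
      rw [F_focus] at ht2
      exact hσ.ne ht2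
    have ht0' : 0 < t := lt_of_le_of_ne ht.1 ht0.symm
    have h4 := h _ ht2
    have h5 := hin a (by rw [F_focus]; exact hσ)
    have h6 := F_conv b w a p ht.1 ht.2
    rw [h4] at h6
    nlinarith [ht.2]

end Pool.Agent.H47P
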