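import Pool.Agent.H47P.Cell2

/-! Module CELL of MP_588c6d_co, third part. -/

set_option autoImplicit false

open Polynomial Finset
open Pool.Agent.H59.Per

namespace Pool.Agent.H47P

/-- `Z` is reached from `z` going right without changing the position with respect to `J` -/
def Reach {m : ℕ} (a y : Fin m → ℂ) (σ : Fin m → ℝ) (J : Finset (Fin m)) (z Z : ℂ) : Prop :=
  ∃ s : ℝ, 0 < s ∧ z + s = Z ∧ ∀ j ∈ J, ∀ t : ℝ, 0 ≤ t → t < s →
    (F (a j) (y j) (z + t) < σ j ↔ F (a j) (y j) z < σ j)

section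

variable {m : ℕ} {a y : Fin m → ℂ} {σ : Fin m → ℝ} {J : Finset (Fin m)}

lemma Reach.same {z z' Z : ℂ} (h : Reach a y σ J z Z) (h' : Reach a y σ J z' Z) {j : Fin m}
    (hj : j ∈ J) : F (a j) (y j) z < σ j ↔ F (a j) (y j) z' < σ j := by
  obtain ⟨s, hs, e, h1⟩ := h
  obtain ⟨s', hs', e', h1'⟩ := h'
  have hmin : 0 < min s s' / 2 := by positivity
  have h2 : min s s' ≤ s := min_le_left _ _
  have h3 : min s s' ≤ s' := min_le_right _ _
  have a1 := h1 j hj (s - min s s' / 2) (by linarith) (by linarith)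
  have a2 := h1' j hj (s' - min s s' / 2) (by linarith) (by linarith)
  have e1 : z + ((s - min s s' / 2 : ℝ) : ℂ) = z' + ((s' - min s s' / 2 : ℝ) : ℂ) := by
    rw [Complex.ofReal_sub, Complex.ofReal_sub, ← add_sub_assoc, ← add_sub_assoc, e, e']
  rw [e1] at a1
  exact a1.symm.trans a2

lemma Reach.sign {z Z : ℂ} (h : Reach a y σ J z Z) {j : Fin m} (hj : j ∈ J)
    (hσ : ‖a j - y j‖ < σ j) (hQ : Q (a j) (y j) (σ j) Z ≠ 0) :
    F (a j) (y j) z < σ j ↔ 0 < Q (a j) (y j) (σ j) Z := by
  obtain ⟨s, hs, e, h1⟩ := h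
  have hc : Continuous (fun t : ℝ => F (a j) (y j) (z + t)) :=
    (F_cont _ _).comp (by fun_prop)
  rw [Q_pos_iff hσ]
  have hne : F (a j) (y j) Z ≠ σ j := fun h => hQ ((Q_zero_iff hσ Z).2 h)
  constructor
  · intro h2
    by_contra h3
    push Not at h3
    have h4 : σ j < F (a j) (y j) Z := lt_of_le_of_ne h3 (Ne.symm hne)
    have h5 : ∀ᶠ t : ℝ in nhds s, σ j < F (a j) (y j) (z + t) := by
      apply hc.continuousAt.eventually_const_lt
      show σ j < F (a j) (y j) (z + (s : ℂ))
      rw [e]; exact h4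
    have h6 : ∀ᶠ t : ℝ in nhdsWithin s (Set.Iio s), σ j < F (a j) (y j) (z + t) :=
      h5.filter_mono nhdsWithin_le_nhds
    have h7 : ∀ᶠ t : ℝ in nhdsWithin s (Set.Iio s), 0 ≤ t :=
      (eventually_ge_nhds hs).filter_mono nhdsWithin_le_nhds
    obtain ⟨t, ht1, ht2, ht3⟩ := (h6.and (h7.and self_mem_nhdsWithin)).exists
    have := (h1 j hj t ht2 ht3).2 h2
    linarith
  · intro h2
    have h5 : ∀ᶠ t : ℝ in nhds s, F (a j) (y j) (z + t) < σ j := by
      apply hc.continuousAt.eventually_lt_const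
      show F (a j) (y j) (z + (s : ℂ)) < σ j
      rw [e]; exact h2
    have h6 : ∀ᶠ t : ℝ in nhdsWithin s (Set.Iio s), F (a j) (y j) (z + t) < σ j :=
      h5.filter_mono nhdsWithin_le_nhds
    have h7 : ∀ᶠ t : ℝ in nhdsWithin s (Set.Iio s), 0 ≤ t :=
      (eventually_ge_nhds hs).filter_mono nhdsWithin_le_nhds
    obtain ⟨t, ht1, ht2, ht3⟩ := (h6.and (h7.and self_mem_nhdsWithin)).exists
    exact (h1 j hj t ht2 ht3).1 ht1

/-- if the polynomial vanishes, the second ellipse contains the first -/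
lemma coincide {a y : ℂ} {σ : ℝ} (hσ : ‖a - y‖ < σ) {b w : ℂ} {τ : ℝ} (hτ : ‖b - w‖ < τ)
    (hG : GP a y σ b w τ = 0) (z : ℂ) (hz : F a y z = σ) : F b w z = τ := by
  rw [← Q_zero_iff hτ]
  rcases param hσ hz with rfl | ⟨s, rfl⟩
  · have h := Q_Zinf hσ b w τ
    rw [hG] at h
    simp only [eval_zero, mul_zero, sub_zero, add_zero, zero_div] at h
    have hre := abs_lt.1 (abs_re_le' hσ)
    have hne : (σ + (y.re - a.re)) ^ 2 ≠ 0 := by
      apply pow_ne_zero; linarith
    exact (mul_eq_zero.1 h).resolve_right hne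
  · have h := eval_GP hσ b w τ s
    rw [hG, eval_zero] at h
    have hne : DD a y σ s ^ 2 ≠ 0 := pow_ne_zero _ (DD_pos hσ s).ne'
    exact (mul_eq_zero.1 h.symm).resolve_right hne

/-- the number of patterns seen from points whose first hit is on the ellipse `i` -/
lemma count_one (hJ : ∀ j ∈ J, ‖a j - y j‖ < σ j) {i : Fin m} (hi : i ∈ J)
    (P : Finset ℂ) (f : ℂ → Fin m → Bool)
    (hf1 : ∀ p ∈ P, ∀ j ∈ J, f p j = true ↔ F (a j) (y j) p < σ j)
    (hf2 : ∀ p ∈ P, ∀ j ∉ J, f p j = false)
    (hne : ∀ p ∈ P, ∀ j, F (a j) (y j) p ≠ σ j)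
    (Z : ℂ → ℂ) (hZ : ∀ p ∈ P, Reach a y σ J p (Z p)) (hZi : ∀ p ∈ P, F (a i) (y i) (Z p) = σ i) :
    (P.image f).card ≤ 12 * m + 3 := by
  classical
  have hext : ∀ p ∈ P, ∀ q ∈ P,
      (∀ j ∈ J, F (a j) (y j) p < σ j ↔ F (a j) (y j) q < σ j) → f p = f q := by
    intro p hp q hq h
    funext j
    by_cases hj : j ∈ J
    · have h1 := hf1 p hp j hj
      have h2 := hf1 q hq j hj
      have h3 := h j hj
      rw [Bool.eq_iff_iff]
      exact h1.trans (h3.trans h2.symm)
    · rw [hf2 p hp j hj, hf2 q hq j hj]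
  let G : Fin m → ℝ[X] := fun j => GP (a i) (y i) (σ i) (a j) (y j) (σ j)
  let B : Finset ℝ := Finset.univ.biUnion (fun j => (G j).roots.toFinset)
  have hB : B.card ≤ 4 * m := by
    calc B.card ≤ ∑ j : Fin m, ((G j).roots.toFinset).card := Finset.card_biUnion_le
      _ ≤ ∑ j : Fin m, 4 := by
          apply Finset.sum_le_sum
          intro j _
          exact (Multiset.toFinset_card_le _).trans ((card_roots' _).trans (GP_deg _ _ _ _ _ _))
      _ = 4 * m := by simp [mul_comm]
  have hroot : ∀ j, G j ≠ 0 → ∀ x, (G j).eval x = 0 → x ∈ B := by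
    intro j hj x hx
    simp only [B, Finset.mem_biUnion, Finset.mem_univ, true_and, Multiset.mem_toFinset]
    exact ⟨j, (mem_roots hj).2 hx⟩
  -- the parameter
  have hpar : ∀ p ∈ P, Z p = Zinf (a i) (y i) (σ i) ∨ ∃ s, Z p = ZZ (a i) (y i) (σ i) s :=
    fun p hp => param (hJ i hi) (hZi p hp)
  let par : ℂ → ℝ := fun p => if h : ∃ s, Z p = ZZ (a i) (y i) (σ i) s then h.choose else 0
  have hpars : ∀ p ∈ P, Z p ≠ Zinf (a i) (y i) (σ i) → Z p = ZZ (a i) (y i) (σ i) (par p) := by
    intro p hp hn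
    have h := (hpar p hp).resolve_left hn
    simp only [par, dif_pos h]
    exact h.choose_spec
  let P1 := P.filter (fun p => Z p = Zinf (a i) (y i) (σ i))
  let P2 := P.filter (fun p => Z p ≠ Zinf (a i) (y i) (σ i) ∧ par p ∈ B)
  let P3 := P.filter (fun p => Z p ≠ Zinf (a i) (y i) (σ i) ∧ par p ∉ B)
  have hP : P.image f ⊆ P1.image f ∪ (P2.image f ∪ P3.image f) := by
    intro b hb
    obtain ⟨p, hp, rfl⟩ := Finset.mem_image.1 hb
    simp only [Finset.mem_union]
    by_cases h1 : Z p = Zinf (a i) (y i) (σ i)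
    · left; exact Finset.mem_image_of_mem _ (Finset.mem_filter.2 ⟨hp, h1⟩)
    · right
      by_cases h2 : par p ∈ B
      · left; exact Finset.mem_image_of_mem _ (Finset.mem_filter.2 ⟨hp, h1, h2⟩)
      · right; exact Finset.mem_image_of_mem _ (Finset.mem_filter.2 ⟨hp, h1, h2⟩)
  have hc1 : (P1.image f).card ≤ 1 := by
    have h := card_image_le_of_factor P1 f (fun _ => ()) (by
      intro p hp q hq _
      rw [Finset.mem_filter] at hp hq
      apply hext p hp.1 q hq.1
      intro j hj
      have hp' := hZ p hp.1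
      rw [hp.2, ← hq.2] at hp'
      exact hp'.same (hZ q hq.1) hj)
    refine h.trans ?_
    exact (Finset.card_le_univ _).trans (by simp)
  have hc2 : (P2.image f).card ≤ 4 * m := by
    have h := card_image_le_of_factor P2 f par (by
      intro p hp q hq hpq
      rw [Finset.mem_filter] at hp hq
      apply hext p hp.1 q hq.1
      intro j hj
      have hp' := hZ p hp.1
      rw [hpars p hp.1 hp.2.1, hpq, ← hpars q hq.1 hq.2.1] at hp'
      exact hp'.same (hZ q hq.1) hj)
    refine h.trans (le_trans (Finset.card_le_card ?_) hB)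
    intro b hb
    obtain ⟨p, hp, rfl⟩ := Finset.mem_image.1 hb
    exact (Finset.mem_filter.1 hp).2.2
  have hc3 : (P3.image f).card ≤ (4 * m + 1) * 2 := by
    have h := card_image_le_of_factor P3 f
      (fun p => ((B.filter (· < par p)).card, f p i)) (by
      intro p hp q hq hpq
      rw [Finset.mem_filter] at hp hq
      have hcard : (B.filter (· < par p)).card = (B.filter (· < par q)).card :=
        congrArg Prod.fst hpq
      have hbit : f p i = f q i := congrArg Prod.snd hpq
      apply hext p hp.1 q hq.1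
      intro j hj
      by_cases hG : G j = 0
      · have hco := coincide (hJ i hi) (hJ j hj) hG
        have e1 := same_inside (hJ i hi) hco (hne p hp.1 i) (hne p hp.1 j)
        have e2 := same_inside (hJ i hi) hco (hne q hq.1 i) (hne q hq.1 j)
        have e3 : F (a i) (y i) p < σ i ↔ F (a i) (y i) q < σ i := by
          rw [← hf1 p hp.1 i hi, ← hf1 q hq.1 i hi, hbit]
        exact e1.symm.trans (e3.trans e2)
      · have hg := gap_sign B (hroot j hG) hp.2.2 hq.2.2 hcard
        have key : ∀ r ∈ P, Z r ≠ Zinf (a i) (y i) (σ i) → par r ∉ B →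
            (F (a j) (y j) r < σ j ↔ 0 < (G j).eval (par r)) := by
          intro r hr hr1 hr2
          have hD := DD_pos (hJ i hi) (par r)
          have hev := eval_GP (hJ i hi) (a j) (y j) (σ j) (par r)
          have hz0 : (G j).eval (par r) ≠ 0 := fun h0 => hr2 (hroot j hG _ h0)
          have hev' : (G j).eval (par r) =
              Q (a j) (y j) (σ j) (Z r) * DD (a i) (y i) (σ i) (par r) ^ 2 := by
            rw [hpars r hr hr1]; exact hev
          have hQ : Q (a j) (y j) (σ j) (Z r) ≠ 0 := by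
            intro h0
            rw [h0, zero_mul] at hev'
            exact hz0 hev'
          rw [(hZ r hr).sign hj (hJ j hj) hQ, hev']
          constructor
          · intro h; positivity
          · intro h
            have hD2 : 0 < DD (a i) (y i) (σ i) (par r) ^ 2 := by positivity
            exact (pos_iff_pos_of_mul_pos h).2 hD2
        rw [key p hp.1 hp.2.1 hp.2.2, key q hq.1 hq.2.1 hq.2.2]
        exact hg)
    refine h.trans ?_
    have hsub : (P3.image (fun p => ((B.filter (· < par p)).card, f p i))) ⊆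
        (Finset.range (4 * m + 1)) ×ˢ (Finset.univ : Finset Bool) := by
      intro b hb
      obtain ⟨p, hp, rfl⟩ := Finset.mem_image.1 hb
      simp only [Finset.mem_product, Finset.mem_range, Finset.mem_univ, and_true]
      exact lt_of_le_of_lt (Finset.card_filter_le _ _) (by omega)
    refine (Finset.card_le_card hsub).trans ?_
    rw [Finset.card_product]; simp
  calc (P.image f).card ≤ _ := Finset.card_le_card hP
    _ ≤ (P1.image f).card + ((P2.image f).card + (P3.image f).card) :=
        (Finset.card_union_le _ _).trans (Nat.add_le_add_left (Finset.card_union_le _ _) _)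
    _ ≤ 12 * m + 3 := by omega

end

/-- to complex numbers -/
def toC (p : Pl) : ℂ := ⟨p.1, p.2⟩

lemma dd_eq (p q : Pl) : dd p q = ‖toC p - toC q‖ := by
  unfold dd toC
  have h := norm_sq' ((⟨p.1, p.2⟩ : ℂ) - ⟨q.1, q.2⟩)
  rw [Complex.sub_re, Complex.sub_im] at h
  have : Real.sqrt ((p.1 - q.1) ^ 2 + (p.2 - q.2) ^ 2) =
      Real.sqrt (‖(⟨p.1, p.2⟩ : ℂ) - ⟨q.1, q.2⟩‖ ^ 2) := by rw [h]
  rw [this, Real.sqrt_sq (norm_nonneg _)]

lemma F_eq_dd (p A Y : Pl) : F (toC A) (toC Y) (toC p) = dd p A + dd p Y := by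
  unfold F; rw [dd_eq, dd_eq]

/-- MODULE CELL -/
theorem cell : CELL := by
  classical
  refine ⟨15, fun m A Y σ P hP => ?_⟩
  rcases Nat.eq_zero_or_pos m with hm | hm
  · subst hm
    refine (Finset.card_le_univ _).trans ?_
    simp
  have : Nonempty (Fin m) := ⟨⟨0, hm⟩⟩
  let a : Fin m → ℂ := fun i => toC (A i)
  let y : Fin m → ℂ := fun i => toC (Y i)
  let J : Finset (Fin m) := Finset.univ.filter (fun i => ‖a i - y i‖ < σ i)
  let f : ℂ → Fin m → Bool := fun z i => decide (F (a i) (y i) z < σ i)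
  let PC : Finset ℂ := P.image toC
  have himg : P.image (fun p => ((fun i => decide (dd p (A i) + dd p (Y i) < σ i)) :
      Fin m → Bool)) = PC.image f := by
    simp only [PC, Finset.image_image]
    apply Finset.image_congr
    intro p _
    funext i
    simp only [f, Function.comp, a, y, F_eq_dd]
  rw [himg]
  have hJ : ∀ j ∈ J, ‖a j - y j‖ < σ j := fun j hj => (Finset.mem_filter.1 hj).2
  have hne : ∀ p ∈ PC, ∀ j, F (a j) (y j) p ≠ σ j := by
    intro p hp j
    obtain ⟨q, hq, rfl⟩ := Finset.mem_image.1 hp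
    simp only [a, y, F_eq_dd]
    exact hP q hq j
  have hout : ∀ p : ℂ, ∀ j ∉ J, f p j = false := by
    intro p j hj
    have h1 : σ j ≤ ‖a j - y j‖ := by
      by_contra h
      push Not at h
      exact hj (Finset.mem_filter.2 ⟨Finset.mem_univ _, h⟩)
    have h2 : ‖a j - y j‖ ≤ F (a j) (y j) p := by
      unfold F
      have : a j - y j = (p - y j) - (p - a j) := by ring
      rw [this]
      exact (norm_sub_le _ _).trans (by rw [add_comm])
    simp only [f, decide_eq_false_iff_not, not_lt]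
    linarith
  -- points inside something
  let P0 := PC.filter (fun p => ∀ j ∈ J, ¬ F (a j) (y j) p < σ j)
  let P1 := PC.filter (fun p => ∃ j ∈ J, F (a j) (y j) p < σ j)
  have hhit : ∀ p ∈ P1, ∃ i ∈ J, ∃ Z, Reach a y σ J p Z ∧ F (a i) (y i) Z = σ i := by
    intro p hp
    rw [Finset.mem_filter] at hp
    obtain ⟨i, hi, s, hs, h1, h2⟩ := first_hit a y σ J p (hne p hp.1) hp.2
    exact ⟨i, hi, p + s, ⟨s, hs, rfl, h2⟩, h1⟩
  choose! ix hix ZF hZF using hhit
  have hsub : PC.image f ⊆ P0.image f ∪ J.biUnion (fun i => (P1.filter (fun p => ix p = i)).image f) := by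
    intro b hb
    obtain ⟨p, hp, rfl⟩ := Finset.mem_image.1 hb
    rw [Finset.mem_union]
    by_cases h : ∃ j ∈ J, F (a j) (y j) p < σ j
    · right
      have hp1 : p ∈ P1 := Finset.mem_filter.2 ⟨hp, h⟩
      rw [Finset.mem_biUnion]
      exact ⟨ix p, hix p hp1, Finset.mem_image_of_mem _ (Finset.mem_filter.2 ⟨hp1, rfl⟩)⟩
    · left
      push Not at h
      apply Finset.mem_image_of_mem
      refine Finset.mem_filter.2 ⟨hp, ?_⟩
      intro j hj
      exact not_lt.2 (h j hj)
  have hc0 : (P0.image f).card ≤ 1 := by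
    have h := card_image_le_of_factor P0 f (fun _ => ()) (by
      intro p hp q hq _
      rw [Finset.mem_filter] at hp hq
      funext j
      by_cases hj : j ∈ J
      · have h1 := hp.2 j hj
        have h2 := hq.2 j hj
        simp only [f]
        rw [decide_eq_false h1, decide_eq_false h2]
      · rw [hout p j hj, hout q j hj])
    refine h.trans ?_
    exact (Finset.card_le_univ _).trans (by simp)
  have hc1 : ∀ i ∈ J, ((P1.filter (fun p => ix p = i)).image f).card ≤ 12 * m + 3 := by
    intro i hi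
    apply count_one (a := a) (y := y) (σ := σ) (J := J) hJ hi _ f _ _ _ ZF
    · intro p hp
      rw [Finset.mem_filter] at hp
      exact (hZF p hp.1).1
    · intro p hp
      rw [Finset.mem_filter] at hp
      have := (hZF p hp.1).2
      rw [hp.2] at this
      exact this
    · intro p _ j _
      simp [f]
    · intro p _ j hj
      exact hout p j hj
    · intro p hp j
      have hp1 := (Finset.mem_filter.1 hp).1
      exact hne p (Finset.mem_filter.1 hp1).1 j
  have hJc : J.card ≤ m := by
    simpa using (Finset.card_filter_le (Finset.univ : Finset (Fin m)) _)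
  calc (PC.image f).card ≤ _ := Finset.card_le_card hsub
    _ ≤ (P0.image f).card + ∑ i ∈ J, ((P1.filter (fun p => ix p = i)).image f).card :=
        (Finset.card_union_le _ _).trans (Nat.add_le_add_left Finset.card_biUnion_le _)
    _ ≤ 1 + ∑ i ∈ J, (12 * m + 3) := Nat.add_le_add hc0 (Finset.sum_le_sum hc1)
    _ = 1 + J.card * (12 * m + 3) := by simp
    _ ≤ 1 + m * (12 * m + 3) := by gcongr
    _ ≤ 15 * (m ^ 2 + 1) := by nlinarith

end Pool.Agent.H47P
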